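import Mathlib

set_option autoImplicit false

namespace Pool.Agent.Results.MP_a79530_al.StrictGrowthFails

open MvPolynomial

universe u

/-- `IsLocalVNumber J p v` says that `v` is the local v-number of the ideal `J` at `p`: the least
degree of a homogeneous polynomial `f` with `(J : f) = p`. -/
def IsLocalVNumber {K : Type u} [Field K] {n : ℕ} (J p : Ideal (MvPolynomial (Fin n) K))
    (v : ℕ) : Prop :=
  IsLeast {d : ℕ | ∃ f : MvPolynomial (Fin n) K, f.IsHomogeneous d ∧
    Submodule.colon J {f} = p} v

/-- `IsHomogIdeal I` says that the ideal `I` is homogeneous, i.e. generated by homogeneous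
polynomials. -/
def IsHomogIdeal {K : Type u} [Field K] {n : ℕ} (I : Ideal (MvPolynomial (Fin n) K)) : Prop :=
  ∃ S : Set (MvPolynomial (Fin n) K), (∀ f ∈ S, ∃ d : ℕ, f.IsHomogeneous d) ∧ I = Ideal.span S

/-- The exponents of the generators `X i * X j` (`i ≠ j`) and `X i ^ N`. -/
def expo (n N : ℕ) : Set (Fin n →₀ ℕ) :=
  {s | (∃ i j : Fin n, i ≠ j ∧ s = Finsupp.single i 1 + Finsupp.single j 1) ∨
    ∃ i : Fin n, s = Finsupp.single i N}

/-- The monomial ideal generated by all `X i * X j` (`i ≠ j`) and all `X i ^ N`. -/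
noncomputable def idl (K : Type u) [Field K] (n N : ℕ) : Ideal (MvPolynomial (Fin n) K) :=
  Ideal.span ((fun s => monomial s (1 : K)) '' expo n N)

/-- The maximal homogeneous ideal. -/
noncomputable abbrev maxi (K : Type u) [Field K] (n : ℕ) : Ideal (MvPolynomial (Fin n) K) :=
  Ideal.span (Set.range X)

variable {K : Type u} [Field K] {n N : ℕ}

lemma mem_maxi_iff (f : MvPolynomial (Fin n) K) :
    f ∈ maxi K n ↔ ∀ x ∈ f.support, 1 ≤ Finsupp.degree x := by
  have h := mem_pow_idealOfVars_iff (σ := Fin n) (R := K) 1 f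
  rw [pow_one] at h
  exact h

lemma maxi_isMaximal : (maxi K n).IsMaximal := by
  have h : maxi K n = RingHom.ker (constantCoeff (R := K) (σ := Fin n)) := by
    ext f
    rw [mem_maxi_iff, RingHom.mem_ker, constantCoeff_eq]
    constructor
    · intro h
      by_contra h0
      have := h 0 (mem_support_iff.mpr h0)
      simp at this
    · intro h x hx
      by_contra hlt
      have hx0 : Finsupp.degree x = 0 := by omega
      rw [Finsupp.degree_eq_zero_iff] at hx0
      subst hx0
      exact (mem_support_iff.mp hx) h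
  rw [h]
  exact RingHom.ker_isMaximal_of_surjective _ (fun r => ⟨C r, constantCoeff_C (Fin n) r⟩)

lemma mem_idl_iff (f : MvPolynomial (Fin n) K) :
    f ∈ idl K n N ↔ ∀ x ∈ f.support, ∃ s ∈ expo n N, s ≤ x :=
  mem_ideal_span_monomial_image

lemma idl_homogeneous : IsHomogIdeal (idl K n N) := by
  refine ⟨_, ?_, rfl⟩
  rintro _ ⟨s, -, rfl⟩
  exact ⟨Finsupp.degree s, isHomogeneous_monomial _ rfl⟩

lemma degree_eq {f : MvPolynomial (Fin n) K} {d : ℕ} (hf : f.IsHomogeneous d) {s : Fin n →₀ ℕ}
    (hs : s ∈ f.support) : Finsupp.degree s = d := by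
  rw [Finsupp.degree_eq_weight_one]
  exact hf (mem_support_iff.mp hs)

lemma degree_of_mem_expo (hN : 2 ≤ N) {s : Fin n →₀ ℕ} (hs : s ∈ expo n N) :
    2 ≤ Finsupp.degree s := by
  rcases hs with ⟨i, j, -, rfl⟩ | ⟨i, rfl⟩
  · rw [map_add, Finsupp.degree_single, Finsupp.degree_single]
  · rw [Finsupp.degree_single]; exact hN

lemma idl_le_sq (hN : 2 ≤ N) : idl K n N ≤ maxi K n ^ 2 := by
  rw [idl, Ideal.span_le]
  rintro _ ⟨s, hs, rfl⟩
  exact (monomial_mem_pow_idealOfVars_iff 2 s one_ne_zero).mpr (degree_of_mem_expo hN hs)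

lemma X_mul_X_mem {i j : Fin n} (hij : i ≠ j) :
    (X i * X j : MvPolynomial (Fin n) K) ∈ idl K n N := by
  apply Ideal.subset_span
  refine ⟨Finsupp.single i 1 + Finsupp.single j 1, Or.inl ⟨i, j, hij, rfl⟩, ?_⟩
  simp only [X, monomial_mul, one_mul]

lemma X_pow_mem (i : Fin n) : (X i ^ N : MvPolynomial (Fin n) K) ∈ idl K n N := by
  apply Ideal.subset_span
  refine ⟨Finsupp.single i N, Or.inr ⟨i, rfl⟩, ?_⟩
  simp only [X_pow_eq_monomial]

lemma radical_idl (hN : 2 ≤ N) : (idl K n N).radical = maxi K n := by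
  apply le_antisymm
  · rw [Ideal.IsPrime.radical_le_iff maxi_isMaximal.isPrime]
    exact (idl_le_sq hN).trans (Ideal.pow_le_self two_ne_zero)
  · rw [Ideal.span_le]
    rintro _ ⟨i, rfl⟩
    exact ⟨N, X_pow_mem i⟩

lemma assoc_idl (hN : 2 ≤ N) {k : ℕ} (hk : 1 ≤ k) :
    associatedPrimes (MvPolynomial (Fin n) K) (MvPolynomial (Fin n) K ⧸ idl K n N ^ k)
      = {maxi K n} := by
  have hr : (idl K n N ^ k).radical = maxi K n := by
    rw [Ideal.radical_pow _ (by omega : k ≠ 0), radical_idl hN]
  have hp : (idl K n N ^ k).IsPrimary := by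
    apply Ideal.isPrimary_of_isMaximal_radical
    rw [hr]; exact maxi_isMaximal
  rw [associatedPrimes.eq_singleton_of_isPrimary hp, hr]

lemma not_le_single {a b i : Fin n} {M : ℕ} (hab : a ≠ b) :
    ¬ (Finsupp.single a 1 + Finsupp.single b 1 ≤ Finsupp.single i M) := by
  intro hle
  have h1 := hle a
  have h2 := hle b
  simp only [Finsupp.add_apply, Finsupp.single_apply, if_true, if_neg hab, if_neg (Ne.symm hab)]
    at h1 h2
  by_cases ha : i = a
  · subst ha
    rw [if_neg hab] at h2
    omega
  · rw [if_neg ha] at h1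
    omega

/-- If `maxi ≤ (J : f)` and `f ∉ J` then `(J : f) = maxi`. -/
lemma colon_eq_maxi {J : Ideal (MvPolynomial (Fin n) K)} {f : MvPolynomial (Fin n) K}
    (h : ∀ i : Fin n, X i * f ∈ J) (hf : f ∉ J) : Submodule.colon J {f} = maxi K n := by
  refine (maxi_isMaximal.eq_of_le ?_ ?_).symm
  · rw [Ne, Ideal.eq_top_iff_one, Submodule.mem_colon_singleton, one_smul]
    exact hf
  · rw [Ideal.span_le]
    rintro _ ⟨i, rfl⟩
    rw [SetLike.mem_coe, Submodule.mem_colon_singleton, smul_eq_mul]
    exact h i

lemma not_mem_of_colon {J : Ideal (MvPolynomial (Fin n) K)} {f : MvPolynomial (Fin n) K}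
    (h : Submodule.colon J {f} = maxi K n) : f ∉ J := by
  intro hf
  have h1 : (1 : MvPolynomial (Fin n) K) ∈ Submodule.colon J {f} := by
    rw [Submodule.mem_colon_singleton, one_smul]; exact hf
  rw [h] at h1
  exact maxi_isMaximal.ne_top ((Ideal.eq_top_iff_one _).mpr h1)

lemma X_mul_mem_of_colon {J : Ideal (MvPolynomial (Fin n) K)} {f : MvPolynomial (Fin n) K}
    (h : Submodule.colon J {f} = maxi K n) (i : Fin n) : X i * f ∈ J := by
  have h1 : (X i : MvPolynomial (Fin n) K) ∈ Submodule.colon J {f} := by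
    rw [h]; exact Ideal.subset_span ⟨i, rfl⟩
  rwa [Submodule.mem_colon_singleton, smul_eq_mul] at h1

/-- The local v-number of `I` at the maximal ideal is `N - 1`. -/
lemma vnumber_one (hn : 3 ≤ n) (hN : 2 ≤ N) : IsLocalVNumber (idl K n N) (maxi K n) (N - 1) := by
  constructor
  · let i0 : Fin n := ⟨0, by omega⟩
    refine ⟨X i0 ^ (N - 1), isHomogeneous_X_pow i0 (N - 1), ?_⟩
    apply colon_eq_maxi
    · intro i
      by_cases hi : i = i0
      · subst hi
        rw [← pow_succ', Nat.sub_add_cancel (by omega)]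
        exact X_pow_mem _
      · obtain ⟨M, hM⟩ : ∃ M, N - 1 = M + 1 := ⟨N - 2, by omega⟩
        rw [hM, pow_succ', ← mul_assoc]
        exact Ideal.mul_mem_right _ _ (X_mul_X_mem hi)
    · rw [mem_idl_iff]
      intro h
      obtain ⟨s, hs, hle⟩ := h (Finsupp.single i0 (N - 1)) (by
        rw [X_pow_eq_monomial, mem_support_iff, coeff_monomial, if_pos rfl]
        exact one_ne_zero)
      rcases hs with ⟨i, j, hij, rfl⟩ | ⟨i, rfl⟩
      · exact not_le_single hij hle
      · have h1 := hle i
        simp only [Finsupp.single_apply, if_true] at h1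
        split_ifs at h1 <;> omega
  · rintro d ⟨f, hf, hcol⟩
    by_contra hlt
    push Not at hlt
    have hfn := not_mem_of_colon hcol
    rw [mem_idl_iff] at hfn
    push Not at hfn
    obtain ⟨s, hs, hsE⟩ := hfn
    have hdeg : Finsupp.degree s = d := degree_eq hf hs
    -- `s` is a pure power
    have hpure : ∃ i : Fin n, s = Finsupp.single i d := by
      by_cases h0 : s = 0
      · refine ⟨⟨0, by omega⟩, ?_⟩
        subst h0
        rw [map_zero] at hdeg
        rw [← hdeg]; simp
      · obtain ⟨i, hi⟩ : ∃ i, s i ≠ 0 := by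
          by_contra hall
          push Not at hall
          exact h0 (Finsupp.ext hall)
        refine ⟨i, ?_⟩
        have hz : ∀ j, j ≠ i → s j = 0 := by
          intro j hj
          by_contra hsj
          refine hsE _ (Or.inl ⟨i, j, hj.symm, rfl⟩) ?_
          intro l
          simp only [Finsupp.add_apply, Finsupp.single_apply]
          by_cases h1 : i = l
          · subst h1
            rw [if_pos rfl, if_neg hj]
            omega
          · rw [if_neg h1]
            by_cases h2 : j = l
            · subst h2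
              rw [if_pos rfl]; omega
            · rw [if_neg h2]; omega
        have hs1 : s = Finsupp.single i (s i) := by
          ext l
          by_cases hl : l = i
          · subst hl; simp
          · rw [hz l hl, Finsupp.single_apply, if_neg (Ne.symm hl)]
        rw [hs1, Finsupp.degree_single] at hdeg
        rw [← hdeg]
        exact hs1
    obtain ⟨i, rfl⟩ := hpure
    have hX := X_mul_mem_of_colon hcol i
    rw [mem_idl_iff] at hX
    obtain ⟨t, ht, hle⟩ := hX (Finsupp.single i 1 + Finsupp.single i d) (by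
      rw [mem_support_iff, coeff_X_mul]
      exact mem_support_iff.mp hs)
    rw [← Finsupp.single_add] at hle
    rcases ht with ⟨a, b, hab, rfl⟩ | ⟨a, rfl⟩
    · exact not_le_single hab hle
    · have h1 := hle a
      simp only [Finsupp.single_apply, if_true] at h1
      split_ifs at h1 <;> omega

/-- The local v-number of `I ^ 2` at the maximal ideal is `3`. -/
lemma vnumber_two (hn : 3 ≤ n) (hN : 2 ≤ N) : IsLocalVNumber (idl K n N ^ 2) (maxi K n) 3 := by
  have hle4 : idl K n N ^ 2 ≤ maxi K n ^ 4 := by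
    calc idl K n N ^ 2 ≤ (maxi K n ^ 2) ^ 2 := Ideal.pow_right_mono (idl_le_sq hN) 2
      _ = maxi K n ^ 4 := by rw [← pow_mul]
  constructor
  · let i0 : Fin n := ⟨0, by omega⟩
    let i1 : Fin n := ⟨1, by omega⟩
    let i2 : Fin n := ⟨2, by omega⟩
    have h01 : i0 ≠ i1 := by simp [i0, i1]
    have h02 : i0 ≠ i2 := by simp [i0, i2]
    have h12 : i1 ≠ i2 := by simp [i1, i2]
    refine ⟨X i0 * X i1 * X i2, ?_, ?_⟩
    · exact ((isHomogeneous_X K i0).mul (isHomogeneous_X K i1)).mul (isHomogeneous_X K i2)
    · apply colon_eq_maxi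
      · intro i
        rw [pow_two]
        by_cases hi0 : i = i0
        · subst hi0
          have : X i0 * (X i0 * X i1 * X i2) =
              (X i0 * X i1) * (X i0 * X i2 : MvPolynomial (Fin n) K) := by ring
          rw [this]
          exact Ideal.mul_mem_mul (X_mul_X_mem h01) (X_mul_X_mem h02)
        · by_cases hi1 : i = i1
          · subst hi1
            have : X i1 * (X i0 * X i1 * X i2) =
                (X i0 * X i1) * (X i1 * X i2 : MvPolynomial (Fin n) K) := by ring
            rw [this]
            exact Ideal.mul_mem_mul (X_mul_X_mem h01) (X_mul_X_mem h12)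
          · have : X i * (X i0 * X i1 * X i2) =
                (X i * X i0) * (X i1 * X i2 : MvPolynomial (Fin n) K) := by ring
            rw [this]
            exact Ideal.mul_mem_mul (X_mul_X_mem hi0) (X_mul_X_mem h12)
      · intro hmem
        have h4 := hle4 hmem
        have : (X i0 * X i1 * X i2 : MvPolynomial (Fin n) K) =
            monomial (Finsupp.single i0 1 + Finsupp.single i1 1 + Finsupp.single i2 1) 1 := by
          simp only [X, monomial_mul, one_mul]
        rw [this] at h4
        have h5 := (monomial_mem_pow_idealOfVars_iff 4 _ one_ne_zero).mp h4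
        simp only [map_add, Finsupp.degree_single] at h5
        omega
  · rintro d ⟨f, hf, hcol⟩
    let i0 : Fin n := ⟨0, by omega⟩
    have hX := hle4 (X_mul_mem_of_colon hcol i0)
    have hfn := not_mem_of_colon hcol
    have hf0 : f ≠ 0 := by
      rintro rfl
      exact hfn (Ideal.zero_mem _)
    obtain ⟨s, hs⟩ := support_nonempty.mpr hf0
    have hdeg : Finsupp.degree s = d := degree_eq hf hs
    have := (mem_pow_idealOfVars_iff 4 _).mp hX (Finsupp.single i0 1 + s) (by
      rw [mem_support_iff, coeff_X_mul]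
      exact mem_support_iff.mp hs)
    rw [map_add, Finsupp.degree_single, hdeg] at this
    omega

/-- **Strict growth of local v-numbers fails, by an arbitrarily large amount.**
For every field `K`, every `n ≥ 3` and every `d`, there is a nonzero proper homogeneous ideal `I`
of `K[x_1, ..., x_n]` such that the maximal homogeneous ideal `m` is the unique associated prime
of every power `I ^ k`, `k ≥ 1`, and such that `v_m(I) = 3 + d` while `v_m(I ^ 2) = 3`. -/
theorem result (K : Type u) [Field K] (n : ℕ) (hn : 3 ≤ n) (d : ℕ) :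
    ∃ I : Ideal (MvPolynomial (Fin n) K),
      IsHomogIdeal I ∧ I ≠ ⊥ ∧ I ≠ ⊤ ∧
      (∀ k : ℕ, 1 ≤ k →
        associatedPrimes (MvPolynomial (Fin n) K) (MvPolynomial (Fin n) K ⧸ I ^ k)
          = {Ideal.span (Set.range X)}) ∧
      IsLocalVNumber (I ^ 1) (Ideal.span (Set.range X)) (3 + d) ∧
      IsLocalVNumber (I ^ 2) (Ideal.span (Set.range X)) 3 := by
  have hN : 2 ≤ d + 4 := by omega
  refine ⟨idl K n (d + 4), idl_homogeneous, ?_, ?_, fun k hk => assoc_idl hN hk, ?_,
    vnumber_two hn hN⟩
  · intro h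
    have h1 : (X ⟨0, by omega⟩ ^ (d + 4) : MvPolynomial (Fin n) K) ∈ idl K n (d + 4) :=
      X_pow_mem _
    rw [h, Ideal.mem_bot] at h1
    exact pow_ne_zero _ (X_ne_zero _) h1
  · intro h
    have h1 := idl_le_sq (K := K) (n := n) hN
    rw [h, top_le_iff] at h1
    exact maxi_isMaximal.ne_top (top_le_iff.mp (h1 ▸ Ideal.pow_le_self two_ne_zero))
  · have := vnumber_one (K := K) hn hN
    rw [pow_one]
    have e : d + 4 - 1 = 3 + d := by omega
    rw [e] at this
    exact this

end Pool.Agent.Results.MP_a79530_al.StrictGrowthFails
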